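import Pool.Agent.MWNP.Stmts

/-!
# MWNP row P1B: clause c1 of base (h) with `D 0`, period `n` (twin of the row N1B of helper67)
-/

set_option autoImplicit false

namespace Pool.Agent.MWNP.H23

open Pool.Agent.Helper14_MV Pool.Agent.Helper2_MV Pool.Agent.MVO Pool.Agent.MWL Pool.Agent.MWS
  Pool.Agent.MWF Pool.Agent.MWN

/-- two blocks -/
def b2 (x y : List ℕ) : ℕ → List ℕ := fun j => if j = 0 then x else if j = 1 then y else []

theorem ctx {β : FIC} (p q : List ℕ) {l l' m m' : List ℕ} (h : RR β l l')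
    (e : p ++ l ++ q = m) (e' : p ++ l' ++ q = m') : RR β m m' := by
  rw [← e, ← e']
  exact ((RR.refl p).append h).append (RR.refl q)

theorem tr {β : FIC} {l m n : List ℕ} (h : RR β l m) (h' : RR β m n) : RR β l n := β.trans h h'

theorem two_b2 {x y : List ℕ} (h : ∀ c ∈ x ++ y, c = 0 ∨ c = 1) : Two01 1 (b2 x y) := by
  intro j hj c hc
  have h1 : j = 0 ∨ j = 1 := by omega
  rcases h1 with rfl | rfl
  · exact h c (List.mem_append_left _ hc)
  · exact h c (List.mem_append_right _ hc)

theorem ok_b2 {x y : List ℕ} (h : ∀ c ∈ x ++ y, c = 0 ∨ c = 1)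
    (h0 : 2 ≤ deg 1 (ty (b2 x y) 0)) (h1 : 2 ≤ deg 1 (ty (b2 x y) 1)) : OkB 1 (b2 x y) := by
  refine ⟨fun j hj c hc => ?_, fun j hj c hc => ?_⟩
  · have := two_b2 h j hj c hc
    unfold NS
    omega
  · rcases two_b2 h j hj c hc with rfl | rfl
    · exact h0
    · exact h1

theorem shn_b2 {n : ℕ} {a b : ℕ → ℕ} (h : ∀ j < 2, a j = b j) : Shn n 1 a b :=
  fun j hj => Or.inl (h j (by omega))

theorem ab_ext {n : ℕ} {R : FC} {k j : ℕ} {a a' : ℕ → ℕ} (h : ∀ i ≤ k, a i = a' i)
    (hA : Ab n R k a j) : Ab n R k a' j :=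
  R.ext h (fun i hi => by unfold ad; rw [h i hi]) hA

theorem e20 {n : ℕ} {β : FIC} (hE : Op n β Bit.E) {a : ℕ → ℕ} (h0 : 2 = a 0) (h1 : 0 = a 1) :
    Ab n (FC.ofFIC β) 1 a 1 := by
  refine ab_ext (a := Bit.E.a) ?_ hE
  intro i hi
  interval_cases i
  · exact h0
  · exact h1

theorem g02 {n : ℕ} {β : FIC} (hG : Op n β Bit.G) {a : ℕ → ℕ} (h0 : 0 = a 0) (h1 : 2 = a 1) :
    Ab n (FC.ofFIC β) 1 a 0 := by
  refine ab_ext (a := Bit.G.a) ?_ hG
  intro i hi
  interval_cases i
  · exact h0
  · exact h1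

/-- two words without states in the first block -/
theorem nost {n : ℕ} {β : FIC} (H : HBP n β) (l l' : List ℕ) (h : ∀ c ∈ l, c = 0 ∨ c = 1)
    (h' : ∀ c ∈ l', c = 0 ∨ c = 1) (c0 : l.count 0 = l'.count 0) (c1 : l.count 1 = l'.count 1)
    (d1 : 2 ≤ l.count 1) (s1 : List.Sublist [1, 0] l) (s2 : List.Sublist [0, 1] l)
    (s1' : List.Sublist [1, 0] l') (s2' : List.Sublist [0, 1] l') :
    RR β (l ++ [2, 0, 0]) (l' ++ [2, 0, 0]) := by
  have m : ∀ l : List ℕ, (∀ c ∈ l, c = 0 ∨ c = 1) → ∀ c ∈ l ++ [0, 0], c = 0 ∨ c = 1 := by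
    intro l hl c hc
    rcases List.mem_append.1 hc with h2 | h2
    · exact hl c h2
    · left
      simpa using h2
  have d0 : ∀ l : List ℕ, 2 ≤ deg 1 (ty (b2 l [0, 0]) 0) := by
    intro l
    unfold deg
    rw [Finset.sum_range_succ, Finset.sum_range_one]
    show 2 ≤ l.count 0 + [0, 0].count 0
    have : [0, 0].count 0 = 2 := by decide
    omega
  have d1' : ∀ l : List ℕ, 2 ≤ l.count 1 → 2 ≤ deg 1 (ty (b2 l [0, 0]) 1) := by
    intro l hl
    unfold deg
    rw [Finset.sum_range_succ, Finset.sum_range_one]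
    show 2 ≤ l.count 1 + [0, 0].count 1
    omega
  have h3 := H.hst 1 (b2 l [0, 0]) (b2 l' [0, 0]) (ok_b2 (m l h) (d0 l) (d1' l d1))
    (ok_b2 (m l' h') (d0 l') (d1' l' (by omega))) (two_b2 (m l h)) (two_b2 (m l' h'))
    (shn_b2 (by
      intro j hj
      interval_cases j
      · exact c0
      · rfl))
    (shn_b2 (by
      intro j hj
      interval_cases j
      · exact c1
      · rfl)) (by
      intro i hi hc
      have h1 : i = 0 ∨ i = 1 := by omega
      rcases h1 with rfl | rfl
      · constructor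
        · show (¬ List.Sublist [1, 0] l) ↔ (¬ List.Sublist [1, 0] l')
          exact iff_of_false (fun h => h s1) (fun h => h s1')
        · show (¬ List.Sublist [0, 1] l) ↔ (¬ List.Sublist [0, 1] l')
          exact iff_of_false (fun h => h s2) (fun h => h s2')
      · exfalso
        rcases hc 0 (Nat.zero_le _) (by decide) with h2 | h2
        · exact h2 (s1.subset (by decide))
        · exact h2 (s1.subset (by decide)))
  exact h3

theorem p1b (hp : PphStmt) (hx : PcxStmt) (ho : PcoStmt) (hd : PddStmt) : P1bStmt := by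
  intro n β H hi hm hD st
  have hn := H.pos
  by_contra hc
  have hE : ¬ Op n β Bit.E := by
    intro hE
    apply hc
    cases st
    · exact ho n β H hi 1 (b2 [0, 1, 1] [0, 0]) (b2 [1, 0, 1] [0, 0]) 1 0 1
        (ok_b2 (by decide) (by decide) (by decide)) (ok_b2 (by decide) (by decide) (by decide))
        (two_b2 (by decide)) (two_b2 (by decide)) (shn_b2 (by decide)) (shn_b2 (by decide))
        (Or.inr ⟨rfl, rfl⟩) le_rfl (by decide) (by decide) (by decide)
        (e20 hE (by decide) (by decide))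
    · exact ho n β H hi 1 (b2 [1, 1, 0] [0, 0]) (b2 [1, 0, 1] [0, 0]) 1 0 1
        (ok_b2 (by decide) (by decide) (by decide)) (ok_b2 (by decide) (by decide) (by decide))
        (two_b2 (by decide)) (two_b2 (by decide)) (shn_b2 (by decide)) (shn_b2 (by decide))
        (Or.inr ⟨rfl, rfl⟩) le_rfl (by decide) (by decide) (by decide)
        (e20 hE (by decide) (by decide))
  have hG : ¬ Op n β Bit.G := by
    intro hG
    apply hc
    cases st
    · exact ho n β H hi 1 (b2 [0, 1, 1] [0, 0]) (b2 [1, 0, 1] [0, 0]) 0 1 0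
        (ok_b2 (by decide) (by decide) (by decide)) (ok_b2 (by decide) (by decide) (by decide))
        (two_b2 (by decide)) (two_b2 (by decide)) (shn_b2 (by decide)) (shn_b2 (by decide))
        (Or.inl ⟨rfl, rfl⟩) (Nat.zero_le _) (by decide) (by decide) (by decide)
        (g02 hG (by decide) (by decide))
    · exact ho n β H hi 1 (b2 [1, 1, 0] [0, 0]) (b2 [1, 0, 1] [0, 0]) 0 1 0
        (ok_b2 (by decide) (by decide) (by decide)) (ok_b2 (by decide) (by decide) (by decide))
        (two_b2 (by decide)) (two_b2 (by decide)) (shn_b2 (by decide)) (shn_b2 (by decide))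
        (Or.inl ⟨rfl, rfl⟩) (Nat.zero_le _) (by decide) (by decide) (by decide)
        (g02 hG (by decide) (by decide))
  have hA1 : Clo β 1 (cd2 Cd.one Cd.one) := hx n β H hi [8] 1 _
    (by
      intro x hx
      simp only [List.mem_cons, List.not_mem_nil, or_false] at hx
      tauto) (by decide +kernel)
  have hB1 : Clo β 1 (cd2 Cd.two Cd.z) := hx n β H hi [8, 0] 1 _
    (by
      intro x hx
      simp only [List.mem_cons, List.not_mem_nil, or_false] at hx
      tauto) (by decide +kernel)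
  have hA2 : Clo β 1 (cd2 Cd.pos Cd.pos) := hx n β H hi [8, 0, 2] 1 _
    (by
      intro x hx
      simp only [List.mem_cons, List.not_mem_nil, or_false] at hx
      tauto) (by decide +kernel)
  apply hc
  rcases hp n β H hi hm 1 0 (cd2 Cd.one Cd.one) (cd2 Cd.two Cd.z) (cd2 Cd.pos Cd.pos)
    (cd2 Cd.two Cd.z) st (v2 2 2) (v2 1 1) (v2 2 0) (v2 2 0) (by decide +kernel) (by decide)
    (by decide) (by decide) (by decide) hA1 hB1 hA2 hB1 with h | h
  · cases st
    · have h1 : RR β [0, 1, 1, 2, 0] [1, 0, 1, 2, 0] := h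
      exact ctx [] [0] h1 rfl rfl
    · have h1 : RR β [1, 1, 0, 2, 0] [1, 0, 1, 2, 0] := h
      exact ctx [] [0] h1 rfl rfl
  · obtain ⟨m, hm⟩ : ∃ m, n = m + 1 := ⟨n - 1, by omega⟩
    obtain ⟨dd, -⟩ := hd n β H
    obtain ⟨Z, hZ⟩ : ∃ Z, Z = List.replicate (2 * m + 1) 0 := ⟨_, rfl⟩
    have hZ2 : List.replicate (2 * n + 1) 0 = 0 :: 0 :: Z := by
      rw [hZ, hm]
      rfl
    have hZ3 : List.replicate (2 * n + 1) 0 = Z ++ [0, 0] := by
      rw [hZ, hm, show 2 * (m + 1) + 1 = (2 * m + 1) + 2 by ring, List.replicate_add]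
      rfl
    have cZ0 : Z.count 0 = 2 * m + 1 := by rw [hZ, List.count_replicate_self]
    have cZ1 : Z.count 1 = 0 := by
      rw [hZ, List.count_replicate]
      rfl
    have mZ : ∀ c ∈ Z, c = 0 := by
      intro c hc
      rw [hZ] at hc
      exact List.eq_of_mem_replicate hc
    have s9 : RR β [1, 0, 1, 2, 0, 0] (1 :: 0 :: 0 :: (Z ++ [1]) ++ [2, 0, 0]) := by
      have h2 := dd hD [1] [1, 2] [] 0
      rw [hZ2] at h2
      have e : [1] ++ (0 :: 0 :: Z ++ ([1, 2] ++ 0 :: 0 :: [])) =
          1 :: 0 :: 0 :: (Z ++ [1]) ++ [2, 0, 0] := by simp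
      rw [e] at h2
      exact h2
    cases st
    · have h1 : RR β [0, 0, 1, 1, 2, 0, 0] [0, 1, 0, 1, 2, 0, 0] := h
      have s1 : RR β [0, 1, 1, 2, 0, 0] (Z ++ [0, 0, 1, 1, 2, 0, 0]) := by
        have h2 := dd hD [] [1, 1, 2] [] 0
        rw [hZ3] at h2
        have e : [] ++ (Z ++ [0, 0] ++ ([1, 1, 2] ++ 0 :: 0 :: [])) =
          Z ++ [0, 0, 1, 1, 2, 0, 0] := by simp
        rw [e] at h2
        exact h2
      have s2 : RR β (Z ++ [0, 0, 1, 1, 2, 0, 0]) (Z ++ [0, 1, 0, 1, 2, 0, 0]) :=
        (RR.refl Z).append h1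
      have s3 : RR β ((Z ++ [0, 1, 0, 1]) ++ [2, 0, 0])
          ((1 :: 0 :: 0 :: (Z ++ [1])) ++ [2, 0, 0]) := by
        refine nost H _ _ ?_ ?_ ?_ ?_ ?_ ?_ ?_ ?_ ?_
        · intro c hc
          rcases List.mem_append.1 hc with h2 | h2
          · exact Or.inl (mZ c h2)
          · simp at h2
            tauto
        · intro c hc
          simp only [List.mem_cons, List.mem_append, List.not_mem_nil, or_false] at hc
          rcases hc with h2 | h2 | h2 | h2 | h2
          · exact Or.inr h2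
          · exact Or.inl h2
          · exact Or.inl h2
          · exact Or.inl (mZ c h2)
          · exact Or.inr h2
        · simp [cZ0]
        · simp [cZ1]
        · simp
        · exact List.Sublist.trans (by decide : List.Sublist [1, 0] [0, 1, 0, 1])
            (List.sublist_append_right _ _)
        · exact List.Sublist.trans (by decide : List.Sublist [0, 1] [0, 1, 0, 1])
            (List.sublist_append_right _ _)
        · exact List.Sublist.trans (by decide : List.Sublist [1, 0] [1, 0, 0])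
            (List.sublist_append_left [1, 0, 0] (Z ++ [1]))
        · refine List.Sublist.cons _ (List.Sublist.cons_cons _ (List.Sublist.cons _ ?_))
          exact List.sublist_append_right _ _
      have e4 : (Z ++ [0, 1, 0, 1]) ++ [2, 0, 0] = Z ++ [0, 1, 0, 1, 2, 0, 0] := by simp
      rw [e4] at s3
      exact tr s1 (tr s2 (tr s3 s9.symm))
    · have h1 : RR β [1, 1, 0, 0, 2, 0, 0] [0, 1, 0, 1, 2, 0, 0] := h
      have s1 : RR β [1, 1, 0, 2, 0, 0] ([1, 1, 0, 0] ++ Z ++ [2, 0, 0]) := by
        have h2 := dd hD [1, 1] [2] [] 0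
        rw [hZ2] at h2
        have e : [1, 1] ++ (0 :: 0 :: Z ++ ([2] ++ 0 :: 0 :: [])) =
          [1, 1, 0, 0] ++ Z ++ [2, 0, 0] := by simp
        rw [e] at h2
        exact h2
      have s2 : RR β ([1, 1, 0, 0] ++ Z ++ [2, 0, 0]) ([0, 1, 0, 1] ++ Z ++ [2, 0, 0]) := by
        have h2 := h1.sub (fun c => if c = 2 then Z ++ [2] else [c])
        have e : List.flatMap (fun c => if c = 2 then Z ++ [2] else [c]) [1, 1, 0, 0, 2, 0, 0] =
            [1, 1, 0, 0] ++ Z ++ [2, 0, 0] := by simp
        have e' : List.flatMap (fun c => if c = 2 then Z ++ [2] else [c]) [0, 1, 0, 1, 2, 0, 0] =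
            [0, 1, 0, 1] ++ Z ++ [2, 0, 0] := by simp
        rw [e, e'] at h2
        exact h2
      have s3 : RR β (([0, 1, 0, 1] ++ Z) ++ [2, 0, 0])
          ((1 :: 0 :: 0 :: (Z ++ [1])) ++ [2, 0, 0]) := by
        refine nost H _ _ ?_ ?_ ?_ ?_ ?_ ?_ ?_ ?_ ?_
        · intro c hc
          rcases List.mem_append.1 hc with h2 | h2
          · simp at h2
            tauto
          · exact Or.inl (mZ c h2)
        · intro c hc
          simp only [List.mem_cons, List.mem_append, List.not_mem_nil, or_false] at hc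
          rcases hc with h2 | h2 | h2 | h2 | h2
          · exact Or.inr h2
          · exact Or.inl h2
          · exact Or.inl h2
          · exact Or.inl (mZ c h2)
          · exact Or.inr h2
        · simp [cZ0]
        · simp [cZ1]
        · simp
        · exact List.Sublist.trans (by decide : List.Sublist [1, 0] [0, 1, 0, 1])
            (List.sublist_append_left _ _)
        · exact List.Sublist.trans (by decide : List.Sublist [0, 1] [0, 1, 0, 1])
            (List.sublist_append_left _ _)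
        · exact List.Sublist.trans (by decide : List.Sublist [1, 0] [1, 0, 0])
            (List.sublist_append_left [1, 0, 0] (Z ++ [1]))
        · refine List.Sublist.cons _ (List.Sublist.cons_cons _ (List.Sublist.cons _ ?_))
          exact List.sublist_append_right _ _
      exact tr s1 (tr s2 (tr s3 s9.symm))

end Pool.Agent.MWNP.H23
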