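import Pool.Agent.MWNP.Stmts

/-!
# MWNP, row P4D (clause c4d of base (h), period `n`; twin of the row N4D of helper95)
-/

set_option autoImplicit false

namespace Pool.Agent.MWNP.H23

open Pool.Agent.Helper14_MV Pool.Agent.Helper2_MV Pool.Agent.MVO Pool.Agent.MWL Pool.Agent.MWS
  Pool.Agent.MWF Pool.Agent.MWN

theorem okb_of {k : ℕ} {B : ℕ → List ℕ} (h : Two01 k B)
    (h0 : 2 ≤ deg k (fun j => (B j).count 0)) (h1 : 2 ≤ deg k (fun j => (B j).count 1)) :
    OkB k B := by
  refine ⟨?_, ?_⟩
  · intro j hj c hc hs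
    rcases h j hj c hc with rfl | rfl
    · exact absurd hs.1 (by omega)
    · exact absurd hs.1 (by omega)
  · intro j hj c hc
    rcases h j hj c hc with rfl | rfl
    · exact h0
    · exact h1

/-- the family with two blocks -/
def F2 (l : List ℕ) : ℕ → List ℕ := fun j => if j = 0 then l else [1]

theorem f2_two {l : List ℕ} (h : ∀ c ∈ l, c = 0 ∨ c = 1) : Two01 1 (F2 l) := by
  intro j _ c hc
  unfold F2 at hc
  by_cases hj : j = 0
  · rw [if_pos hj] at hc
    exact h c hc
  · rw [if_neg hj, List.mem_singleton] at hc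
    exact Or.inr hc

theorem f2_ok {l : List ℕ} (h : ∀ c ∈ l, c = 0 ∨ c = 1) (h0 : 2 ≤ l.count 0)
    (h1 : 1 ≤ l.count 1) : OkB 1 (F2 l) := by
  apply okb_of (f2_two h)
  · unfold deg
    rw [Finset.sum_range_succ, Finset.sum_range_one]
    show 2 ≤ l.count 0 + [1].count 0
    omega
  · unfold deg
    rw [Finset.sum_range_succ, Finset.sum_range_one]
    show 2 ≤ l.count 1 + [1].count 1
    have : [1].count 1 = 1 := by decide
    omega

theorem hs1 {n : ℕ} {β : FIC} (hB : HBP n β) (l l' : List ℕ) (h : ∀ c ∈ l, c = 0 ∨ c = 1)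
    (h' : ∀ c ∈ l', c = 0 ∨ c = 1) (c0 : 2 ≤ l.count 0) (c0' : 2 ≤ l'.count 0)
    (c00 : l.count 0 ≡ l'.count 0 [MOD n])
    (c1 : l.count 1 = 1) (c1' : l'.count 1 = 1)
    (hs : (Fst false l ↔ Fst false l') ∧ (Fst true l ↔ Fst true l')) :
    RR β (asm 1 (F2 l)) (asm 1 (F2 l')) := by
  refine hB.hst 1 (F2 l) (F2 l') (f2_ok h c0 (by omega)) (f2_ok h' c0' (by omega)) (f2_two h)
    (f2_two h') ?_ ?_ ?_
  · intro j _
    unfold ty F2
    by_cases hj : j = 0
    · right; rw [if_pos hj, if_pos hj]; exact ⟨c0, c0', c00⟩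
    · left; rw [if_neg hj, if_neg hj]
  · intro j _
    unfold ty F2
    by_cases hj : j = 0
    · left; rw [if_pos hj, if_pos hj, c1, c1']
    · left; rw [if_neg hj, if_neg hj]
  · intro i _ _
    unfold F2
    by_cases hj : i = 0
    · rw [if_pos hj, if_pos hj]; exact hs
    · rw [if_neg hj, if_neg hj]; exact ⟨Iff.rfl, Iff.rfl⟩

/-- the exponent of the first chunk -/
theorem red_a {n : ℕ} {β : FIC} (hB : HBP n β) (p : ℕ) (hp : 2 ≤ p) (h : p ≡ 2 [MOD n]) :
    RR β (List.replicate p 0 ++ [1, 2, 1]) [0, 0, 1, 2, 1] := by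
  have h1 := hs1 hB (List.replicate p 0 ++ [1]) [0, 0, 1] (by
      intro c hc
      rcases List.mem_append.1 hc with h2 | h2
      · exact Or.inl (List.eq_of_mem_replicate h2)
      · exact Or.inr (List.mem_singleton.1 h2)) (by decide)
    (by rw [List.count_append, List.count_replicate_self]; omega) (by decide)
    (by
      rw [List.count_append, List.count_replicate_self]
      exact h)
    (by rw [List.count_append, List.count_replicate]; rfl) (by decide) ?_
  · have e : asm 1 (F2 (List.replicate p 0 ++ [1])) = List.replicate p 0 ++ [1, 2, 1] := by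
      show (List.replicate p 0 ++ [1]) ++ 2 :: [1] = _
      rw [List.append_assoc]
      rfl
    rw [e] at h1
    exact h1
  · have n1 : ¬ List.Sublist [1, 0] (List.replicate p 0 ++ [1]) := by
      intro h2
      rw [List.sublist_append_iff] at h2
      obtain ⟨l1, l2, e, g1, g2⟩ := h2
      have m1 : ∀ c ∈ l1, c = 0 := fun c hc => List.eq_of_mem_replicate (g1.subset hc)
      have m2 : ∀ c ∈ l2, c = 1 := fun c hc => List.mem_singleton.1 (g2.subset hc)
      cases l1 with
      | nil =>
        rw [List.nil_append] at e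
        have := m2 0 (by rw [← e]; simp)
        omega
      | cons x l1 =>
        have e1 := (List.cons.inj e).1
        have := m1 x (by simp)
        omega
    have y1 : List.Sublist [0, 1] (List.replicate p 0 ++ [1]) := by
      obtain ⟨q, hq⟩ : ∃ q, p = q + 1 := ⟨p - 1, by omega⟩
      rw [hq, List.replicate_succ, List.cons_append]
      exact List.Sublist.cons_cons _ (List.sublist_append_right _ _)
    constructor
    · show (¬ List.Sublist [1, 0] (List.replicate p 0 ++ [1])) ↔ (¬ List.Sublist [1, 0] [0, 0, 1])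
      exact iff_of_true n1 (by decide)
    · show (¬ List.Sublist [0, 1] (List.replicate p 0 ++ [1])) ↔ (¬ List.Sublist [0, 1] [0, 0, 1])
      exact iff_of_false (fun h => h y1) (by decide)

theorem red_b {n : ℕ} {β : FIC} (hB : HBP n β) (p : ℕ) (hp : 1 ≤ p) (h : p + 1 ≡ 2 [MOD n]) :
    RR β (List.replicate p 0 ++ [1, 0, 2, 1]) [0, 1, 0, 2, 1] := by
  have h1 := hs1 hB (List.replicate p 0 ++ [1, 0]) [0, 1, 0] (by
      intro c hc
      rcases List.mem_append.1 hc with h2 | h2
      · exact Or.inl (List.eq_of_mem_replicate h2)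
      · simp at h2
        tauto) (by decide)
    (by
      rw [List.count_append, List.count_replicate_self]
      have : List.count 0 [1, 0] = 1 := by decide
      omega) (by decide)
    (by
      rw [List.count_append, List.count_replicate_self]
      exact h)
    (by rw [List.count_append, List.count_replicate]; rfl) (by decide) ?_
  · have e : asm 1 (F2 (List.replicate p 0 ++ [1, 0])) = List.replicate p 0 ++ [1, 0, 2, 1] := by
      show (List.replicate p 0 ++ [1, 0]) ++ 2 :: [1] = _
      rw [List.append_assoc]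
      rfl
    rw [e] at h1
    exact h1
  · have y0 : List.Sublist [1, 0] (List.replicate p 0 ++ [1, 0]) :=
      List.sublist_append_right _ _
    have y1 : List.Sublist [0, 1] (List.replicate p 0 ++ [1, 0]) := by
      obtain ⟨q, hq⟩ : ∃ q, p = q + 1 := ⟨p - 1, by omega⟩
      rw [hq, List.replicate_succ, List.cons_append]
      exact List.Sublist.cons_cons _ (List.Sublist.trans (by decide : List.Sublist [1] [1, 0])
        (List.sublist_append_right _ _))
    constructor
    · show (¬ List.Sublist [1, 0] (List.replicate p 0 ++ [1, 0])) ↔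
        (¬ List.Sublist [1, 0] [0, 1, 0])
      exact iff_of_false (fun h => h y0) (by decide)
    · show (¬ List.Sublist [0, 1] (List.replicate p 0 ++ [1, 0])) ↔
        (¬ List.Sublist [0, 1] [0, 1, 0])
      exact iff_of_false (fun h => h y1) (by decide)

theorem ab_ext' {n : ℕ} {R : FC} {k j : ℕ} {a a' : ℕ → ℕ} (h : ∀ i ≤ k, a i = a' i)
    (hA : Ab n R k a j) : Ab n R k a' j :=
  R.ext h (fun i hi => by unfold ad; rw [h i hi]) hA

/-- delete `2` and `3`, rename `4` to `2` -/
def gd (c : ℕ) : List ℕ := if c = 2 ∨ c = 3 then [] else if c = 4 then [2] else [c]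

theorem p4d (hPPH : PphStmt) (hPCX : PcxStmt) (hPCO : PcoStmt) : P4dStmt := by
  intro n β hB hI hM hJ
  have hn := hB.pos
  by_contra hC
  have hE : ¬ Op n β Bit.E := by
    intro hE
    apply hC
    have hab : Ab n (FC.ofFIC β) 1 (wo 1 (ty (F2 [0, 0, 1]) 0)) 1 := by
      refine ab_ext' (a := Bit.E.a) ?_ hE
      decide
    exact hPCO n β hB hI 1 (F2 [0, 0, 1]) (F2 [0, 1, 0]) 0 1 1
      (f2_ok (by decide) (by decide) (by decide)) (f2_ok (by decide) (by decide) (by decide))
      (f2_two (by decide)) (f2_two (by decide)) (fun j hj => Or.inl (by revert j; decide))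
      (fun j hj => Or.inl (by revert j; decide))
      (Or.inl ⟨rfl, rfl⟩) (by decide) (by decide) (by decide) (by decide) hab
  have hc1 : Clo β 3 (cd4 Cd.one Cd.one Cd.one Cd.z) := by
    refine hPCX n β hB hI [8, 10] 3 _ ?_ (by decide +kernel)
    intro x hx
    simp only [List.mem_cons, List.not_mem_nil, or_false] at hx
    rcases hx with rfl | rfl
    · left; rfl
    · right; right; right; right; right; right; exact ⟨rfl, hJ⟩
  have hc2 : Clo β 3 (cd4 Cd.z Cd.z Cd.one Cd.one) := by
    refine hPCX n β hB hI [8] 3 _ ?_ (by decide +kernel)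
    intro x hx
    left
    exact List.mem_singleton.1 hx
  have hc3 : Clo β 3 (cd4 Cd.any Cd.any Cd.pos Cd.z) := by
    refine hPCX n β hB hI [8, 10, 0] 3 _ ?_ (by decide +kernel)
    intro x hx
    simp only [List.mem_cons, List.not_mem_nil, or_false] at hx
    rcases hx with rfl | rfl | rfl
    · left; rfl
    · right; right; right; right; right; right; exact ⟨rfl, hJ⟩
    · right; left; exact ⟨rfl, hE⟩
  rcases hPPH n β hB hI hM 3 2 (cd4 Cd.one Cd.one Cd.one Cd.z) (cd4 Cd.z Cd.z Cd.one Cd.one)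
    (cd4 Cd.any Cd.any Cd.pos Cd.z) (cd4 Cd.z Cd.z Cd.one Cd.one) false (v4 2 2 2 0)
    (v4 1 1 1 0) (v4 0 0 1 1) (v4 0 0 1 1) (by decide +kernel) (by decide) (by decide)
    (by decide) (by decide) hc1 hc2 hc3 hc2 with h | h
  · apply hC
    have h1 : RR β [0, 2, 0, 3, 0, 1, 4, 1] [0, 2, 0, 3, 1, 0, 4, 1] := h
    have h2 : RR β [0, 0, 0, 1, 2, 1] [0, 0, 1, 0, 2, 1] := h1.sub gd
    have h3 := (RR.refl (β := β) (List.replicate (n - 1) 0)).append h2
    have e1 : List.replicate (n - 1) 0 ++ [0, 0, 0, 1, 2, 1] =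
        List.replicate (n + 2) 0 ++ [1, 2, 1] := by
      rw [show n + 2 = (n - 1) + 3 by omega, List.replicate_add, List.append_assoc]
      rfl
    have e2 : List.replicate (n - 1) 0 ++ [0, 0, 1, 0, 2, 1] =
        List.replicate (n + 1) 0 ++ [1, 0, 2, 1] := by
      rw [show n + 1 = (n - 1) + 2 by omega, List.replicate_add, List.append_assoc]
      rfl
    rw [e1, e2] at h3
    refine β.trans (β.trans (β.symm (red_a hB (n + 2) (by omega) ?_)) h3)
      (red_b hB (n + 1) (by omega) ?_)
    · exact (Nat.ModEq.add_right 2 (Nat.modEq_zero_iff_dvd.2 (dvd_refl n))).trans (by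
        rw [zero_add])
    · have h4 : n + 1 + 1 = n + 2 := by omega
      rw [h4]
      exact (Nat.ModEq.add_right 2 (Nat.modEq_zero_iff_dvd.2 (dvd_refl n))).trans (by
        rw [zero_add])
  · apply hC
    have h1 : RR β [0, 0, 2, 0, 0, 3, 0, 0, 1, 4, 1] [0, 0, 2, 0, 0, 3, 0, 1, 0, 4, 1] := h
    have h2 : RR β [0, 0, 0, 0, 0, 0, 1, 2, 1] [0, 0, 0, 0, 0, 1, 0, 2, 1] := h1.sub gd
    have h3 := (RR.refl (β := β) (List.replicate (4 * n - 4) 0)).append h2
    have e1 : List.replicate (4 * n - 4) 0 ++ [0, 0, 0, 0, 0, 0, 1, 2, 1] =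
        List.replicate (4 * n + 2) 0 ++ [1, 2, 1] := by
      rw [show 4 * n + 2 = (4 * n - 4) + 6 by omega, List.replicate_add, List.append_assoc]
      rfl
    have e2 : List.replicate (4 * n - 4) 0 ++ [0, 0, 0, 0, 0, 1, 0, 2, 1] =
        List.replicate (4 * n + 1) 0 ++ [1, 0, 2, 1] := by
      rw [show 4 * n + 1 = (4 * n - 4) + 5 by omega, List.replicate_add, List.append_assoc]
      rfl
    rw [e1, e2] at h3
    have e4 : 4 * n ≡ 0 [MOD n] := Nat.modEq_zero_iff_dvd.2 (dvd_mul_left n 4)
    refine β.trans (β.trans (β.symm (red_a hB (4 * n + 2) (by omega) ?_)) h3)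
      (red_b hB (4 * n + 1) (by omega) ?_)
    · exact (Nat.ModEq.add_right 2 e4).trans (by rw [zero_add])
    · have h4 : 4 * n + 1 + 1 = 4 * n + 2 := by omega
      rw [h4]
      exact (Nat.ModEq.add_right 2 e4).trans (by rw [zero_add])

end Pool.Agent.MWNP.H23
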